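import Pool.Agent.H633.CY.Stm

set_option autoImplicit false

/-!
LOW: lower bound for the sum of `1 / p` over the good primes, from the dyadic lower bound.
-/

namespace Pool.Agent.H707.CY633

open Finset Filter
open Pool.Agent.H633.CY

open Classical in
/-- the good primes of a dyadic interval -/
noncomputable def GG (l : ℕ) (v : ℝ) (U : ℕ) : Finset ℕ :=
  (Ioc U (2 * U)).filter (fun p : ℕ => p.Prime ∧ 4 * l ∣ p + 1 ∧
      ∀ r : ℕ, r.Prime → 3 ≤ r → (r : ℝ) ≤ v ^ (11 / 5 : ℝ) → ¬ r ∣ p - 1)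

lemma mem_GG {l : ℕ} {v : ℝ} {U p : ℕ} : p ∈ GG l v U ↔ (U < p ∧ p ≤ 2 * U) ∧ p.Prime ∧
    4 * l ∣ p + 1 ∧ ∀ r : ℕ, r.Prime → 3 ≤ r → (r : ℝ) ≤ v ^ (11 / 5 : ℝ) → ¬ r ∣ p - 1 := by
  classical
  unfold GG
  simp only [mem_filter, mem_Ioc]

lemma mem_PP {l N p : ℕ} : p ∈ PP l N ↔ (1 ≤ p ∧ p ≤ ⌊Real.sqrt N⌋₊) ∧ p.Prime ∧
    4 * l ∣ p + 1 ∧ ∀ r : ℕ, r.Prime → 3 ≤ r →
      (r : ℝ) ≤ Real.log (Real.log N) ^ (11 / 5 : ℝ) → ¬ r ∣ p - 1 := by
  classical
  unfold PP
  simp only [mem_filter, mem_Icc]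

lemma log_sub_le (a : ℕ) (ha : 1 ≤ a) (b : ℕ) (hab : a ≤ b) :
    Real.log b - Real.log a ≤ ∑ j ∈ Ico a b, (1 : ℝ) / j := by
  induction b, hab using Nat.le_induction with
  | base => simp
  | succ n hn ih =>
    rw [sum_Ico_succ_top hn]
    have hn0 : (0 : ℝ) < n := by exact_mod_cast (by omega : 0 < n)
    have h1 : Real.log ((n + 1 : ℕ) : ℝ) - Real.log n ≤ 1 / n := by
      rw [← Real.log_div (by positivity) hn0.ne']
      have h2 := Real.log_le_sub_one_of_pos (x := ((n + 1 : ℕ) : ℝ) / n) (by positivity)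
      have h3 : ((n + 1 : ℕ) : ℝ) / n - 1 = 1 / n := by
        push_cast
        field_simp
        ring
      rwa [h3] at h2
    linarith

lemma sum_GG (l : ℕ) (v : ℝ) (U : ℕ) (_hU : 1 ≤ U) :
    ((GG l v U).card : ℝ) / (2 * U) ≤ ∑ p ∈ GG l v U, (1 : ℝ) / p := by
  rw [div_eq_mul_one_div, ← nsmul_eq_mul]
  refine card_nsmul_le_sum _ _ _ fun p hp => ?_
  obtain ⟨⟨h1, h2⟩, -⟩ := mem_GG.1 hp
  have hp0 : (0 : ℝ) < p := by exact_mod_cast (by omega : 0 < p)
  have h3 : (p : ℝ) ≤ 2 * U := by exact_mod_cast h2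
  exact one_div_le_one_div_of_le hp0 h3

/-- conditions satisfied by all large `u` -/
lemma ev (c η : ℝ) (hc : 0 < c) (hη : 0 < η) : ∀ᶠ u : ℝ in atTop,
    u ^ (1 - η) * Real.log u ^ 3 ≤ c / 8 * u := by
  have h1 := (isLittleO_log_rpow_rpow_atTop (s := η) (3 : ℝ) hη).def
    (show (0 : ℝ) < c / 8 by positivity)
  filter_upwards [h1, eventually_gt_atTop 1] with u hu hu1
  have hu0 : 0 < u := by linarith
  have hl : 0 < Real.log u := Real.log_pos hu1
  rw [Real.norm_of_nonneg (by positivity), Real.norm_of_nonneg (by positivity)] at hu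
  have h2 : Real.log u ^ (3 : ℝ) = Real.log u ^ 3 := by
    rw [← Real.rpow_natCast]
    norm_num
  rw [h2] at hu
  calc u ^ (1 - η) * Real.log u ^ 3 ≤ u ^ (1 - η) * (c / 8 * u ^ η) :=
        mul_le_mul_of_nonneg_left hu (by positivity)
    _ = c / 8 * (u ^ (1 - η) * u ^ η) := by ring
    _ = c / 8 * u := by
        rw [← Real.rpow_add hu0]
        norm_num

lemma log_bound {u : ℝ} (hu : 12 ≤ u) {J1 J2 : ℕ} (h1 : J1 = ⌈Real.exp (u / 2)⌉₊)
    (h2 : J2 = ⌊Real.exp u / 2⌋₊) : 1 ≤ J1 ∧ J1 ≤ J2 ∧ u / 4 ≤ Real.log J2 - Real.log J1 := by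
  have he : 0 < Real.exp (u / 2) := Real.exp_pos _
  have he1 : 1 ≤ Real.exp (u / 2) := Real.one_le_exp (by linarith)
  have hee : Real.exp u = Real.exp (u / 2) * Real.exp (u / 2) := by
    rw [← Real.exp_add]
    congr 1
    ring
  have hbig : 8 * Real.exp (u / 4) ≤ Real.exp (u / 2) := by
    have h3 : Real.exp (u / 2) = Real.exp (u / 4) * Real.exp (u / 4) := by
      rw [← Real.exp_add]
      congr 1
      ring
    have h4 : (8 : ℝ) ≤ Real.exp (u / 4) := by
      have h5 : Real.exp 3 ≤ Real.exp (u / 4) := Real.exp_le_exp.2 (by linarith)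
      have h6 : Real.exp 3 = Real.exp 1 ^ 3 := by
        rw [← Real.exp_nat_mul]
        norm_num
      have h7 := Real.exp_one_gt_d9
      have h8 : (2 : ℝ) ^ 3 ≤ Real.exp 1 ^ 3 := pow_le_pow_left₀ (by norm_num) (by linarith) 3
      linarith
    rw [h3]
    have := Real.exp_pos (u / 4)
    nlinarith
  have hq : 1 ≤ Real.exp (u / 4) := Real.one_le_exp (by linarith)
  have hJ1 : (J1 : ℝ) ≤ 2 * Real.exp (u / 2) := by
    have := Nat.ceil_lt_add_one he.le
    rw [← h1] at this
    linarith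
  have hJ1' : 1 ≤ J1 := by
    rw [h1]
    exact Nat.one_le_ceil_iff.2 he
  have hJ2 : Real.exp u / 4 ≤ J2 := by
    have := Nat.lt_floor_add_one (Real.exp u / 2)
    rw [← h2] at this
    nlinarith
  have hJ1pos : (0 : ℝ) < J1 := by exact_mod_cast hJ1'
  have h9 : (J1 : ℝ) * Real.exp (u / 4) ≤ J2 := by
    have h10 : (J1 : ℝ) * Real.exp (u / 4) ≤ 2 * Real.exp (u / 2) * (Real.exp (u / 2) / 8) := by
      refine mul_le_mul hJ1 (by linarith) (by positivity) (by positivity)
    nlinarith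
  refine ⟨hJ1', ?_, ?_⟩
  · have : (J1 : ℝ) ≤ J2 := by nlinarith
    exact_mod_cast this
  · have h11 : Real.log (J1 * Real.exp (u / 4)) ≤ Real.log J2 :=
      Real.log_le_log (by positivity) h9
    rw [Real.log_mul hJ1pos.ne' (Real.exp_pos _).ne', Real.log_exp] at h11
    linarith

theorem t_low (h : S_DYA) : S_LOW := by
  intro l hl η hη hη1
  obtain ⟨c, v0, hc, hD⟩ := h l hl
  have hD' : ∀ (v : ℝ) (U : ℕ), v0 ≤ v → v ≤ 3 * Real.log (Real.log U) →
      c * (U / (Real.log U * Real.log v ^ 3)) ≤ ((GG l v U).card : ℝ) := hD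
  have hlogN : Tendsto (fun N : ℕ => Real.log N) atTop atTop :=
    Real.tendsto_log_atTop.comp tendsto_natCast_atTop_atTop
  have hlog2N : Tendsto (fun N : ℕ => Real.log (Real.log N)) atTop atTop :=
    Real.tendsto_log_atTop.comp hlogN
  have hev : ∀ᶠ N : ℕ in atTop,
      Real.log (Real.log N) ^ (1 - η) ≤ ∑ p ∈ PP l N, (1 : ℝ) / p := by
    filter_upwards [hlog2N.eventually (ev c η hc hη), hlog2N.eventually (eventually_ge_atTop v0),
      hlog2N.eventually (eventually_ge_atTop 12), hlogN.eventually (eventually_gt_atTop 1),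
      eventually_ge_atTop 1] with N h1 h2 h3 h4 h5
    set u : ℝ := Real.log (Real.log N) with hu
    have hN0 : (0 : ℝ) < N := by exact_mod_cast h5
    have heu : Real.exp u = Real.log N := Real.exp_log (by linarith)
    have hlu : 0 < Real.log u := Real.log_pos (by linarith)
    obtain ⟨hJ1, hJ12, hlog⟩ := log_bound h3 (J1 := ⌈Real.exp (u / 2)⌉₊)
      (J2 := ⌊Real.exp u / 2⌋₊) rfl rfl
    set J1 : ℕ := ⌈Real.exp (u / 2)⌉₊ with hJ1d
    set J2 : ℕ := ⌊Real.exp u / 2⌋₊ with hJ2d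
    -- the inclusion
    have hsub : ∀ j ∈ Ico J1 J2, GG l u (2 ^ j) ⊆ PP l N := by
      intro j hj p hp
      rw [mem_Ico] at hj
      obtain ⟨⟨p1, p2⟩, p3⟩ := mem_GG.1 hp
      refine mem_PP.2 ⟨⟨by omega, ?_⟩, p3⟩
      refine p2.trans (Nat.le_floor ?_)
      have h6 : ((j + 1 : ℕ) : ℝ) ≤ Real.exp u / 2 :=
        (Nat.cast_le.2 (by omega : j + 1 ≤ J2)).trans (Nat.floor_le (by positivity))
      have h7 : Real.log ((2 * 2 ^ j : ℕ) : ℝ) ≤ Real.log (Real.sqrt N) := by
        rw [Real.log_sqrt hN0.le, ← heu]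
        have h8 : ((2 * 2 ^ j : ℕ) : ℝ) = 2 ^ (j + 1) := by
          push_cast
          ring
        rw [h8, Real.log_pow]
        have h9 : Real.log 2 ≤ 1 := by
          have := Real.log_two_lt_d9
          linarith
        have h10 : (0 : ℝ) ≤ ((j + 1 : ℕ) : ℝ) := Nat.cast_nonneg _
        nlinarith
      exact (Real.log_le_log_iff (by positivity) (Real.sqrt_pos.2 hN0)).1 h7
    have hdisj : ∀ i ∈ Ico J1 J2, ∀ j ∈ Ico J1 J2, i ≠ j →
        Disjoint (GG l u (2 ^ i)) (GG l u (2 ^ j)) := by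
      have key : ∀ i j : ℕ, i < j → Disjoint (GG l u (2 ^ i)) (GG l u (2 ^ j)) := by
        intro i j hij
        rw [Finset.disjoint_left]
        intro p hp hp'
        obtain ⟨⟨-, p2⟩, -⟩ := mem_GG.1 hp
        obtain ⟨⟨p1, -⟩, -⟩ := mem_GG.1 hp'
        have h6 : 2 ^ (i + 1) ≤ 2 ^ j := Nat.pow_le_pow_right (by norm_num) hij
        rw [pow_succ] at h6
        omega
      intro i _ j _ hij
      rcases lt_or_gt_of_ne hij with h' | h'
      · exact key i j h'
      · exact (key j i h').symm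
    have hsum : ∑ j ∈ Ico J1 J2, ∑ p ∈ GG l u (2 ^ j), (1 : ℝ) / p ≤
        ∑ p ∈ PP l N, (1 : ℝ) / p := by
      classical
      rw [← sum_biUnion hdisj]
      exact sum_le_sum_of_subset_of_nonneg (biUnion_subset.2 hsub) fun p _ _ => by positivity
    -- the terms
    have hterm : ∀ j ∈ Ico J1 J2, c / (2 * Real.log u ^ 3) * (1 / j) ≤
        ∑ p ∈ GG l u (2 ^ j), (1 : ℝ) / p := by
      intro j hj
      rw [mem_Ico] at hj
      have hj0 : (0 : ℝ) < j := by exact_mod_cast (by omega : 0 < j)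
      have hlt : 0 < Real.log 2 := Real.log_pos (by norm_num)
      have hl2 : Real.log ((2 ^ j : ℕ) : ℝ) = j * Real.log 2 := by
        push_cast
        rw [Real.log_pow]
      have h6 : u ≤ 3 * Real.log (Real.log ((2 ^ j : ℕ) : ℝ)) := by
        rw [hl2]
        have h7 : Real.exp (u / 3) ≤ j * Real.log 2 := by
          have h8 : Real.exp (u / 2) ≤ j := (Nat.le_ceil _).trans (Nat.cast_le.2 hj.1)
          have h9 : Real.exp (u / 2) = Real.exp (u / 3) * Real.exp (u / 6) := by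
            rw [← Real.exp_add]
            congr 1
            ring
          have h10 : (2 : ℝ) ≤ Real.exp (u / 6) := by
            have h11 : Real.exp 1 ≤ Real.exp (u / 6) := Real.exp_le_exp.2 (by linarith)
            have := Real.exp_one_gt_d9
            linarith
          have h12 : 1 / 2 < Real.log 2 := by
            have := Real.log_two_gt_d9
            linarith
          have h13 := Real.exp_pos (u / 3)
          have h14 : Real.exp (u / 3) * 2 ≤ j := by
            calc Real.exp (u / 3) * 2 ≤ Real.exp (u / 3) * Real.exp (u / 6) :=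
                  mul_le_mul_of_nonneg_left h10 h13.le
              _ ≤ j := by rw [← h9]; exact h8
          nlinarith
        have h15 := (Real.le_log_iff_exp_le (by positivity)).2 h7
        linarith
      have h7 := hD' u (2 ^ j) h2 h6
      rw [hl2] at h7
      refine le_trans ?_ (sum_GG l u (2 ^ j) (Nat.one_le_two_pow))
      rw [le_div_iff₀ (by positivity)]
      refine le_trans ?_ h7
      have h8 : ((2 ^ j : ℕ) : ℝ) = 2 ^ j := by push_cast; rfl
      rw [h8]
      have h9 : Real.log 2 ≤ 1 := by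
        have := Real.log_two_lt_d9
        linarith
      have e1 : c / (2 * Real.log u ^ 3) * (1 / j) * (2 * 2 ^ j) =
          c * (2 ^ j / (j * 1 * Real.log u ^ 3)) := by
        field_simp
      rw [e1]
      refine mul_le_mul_of_nonneg_left ?_ hc.le
      refine div_le_div_of_nonneg_left (by positivity) (by positivity) ?_
      gcongr
    have hfin : c / (2 * Real.log u ^ 3) * (u / 4) ≤ ∑ p ∈ PP l N, (1 : ℝ) / p := by
      refine le_trans ?_ hsum
      refine le_trans ?_ (sum_le_sum hterm)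
      rw [← mul_sum]
      refine mul_le_mul_of_nonneg_left ?_ (by positivity)
      exact hlog.trans (log_sub_le J1 hJ1 J2 hJ12)
    refine le_trans ?_ hfin
    have e2 : c / (2 * Real.log u ^ 3) * (u / 4) = c / 8 * u / Real.log u ^ 3 := by
      field_simp
      ring
    rw [e2, le_div_iff₀ (by positivity)]
    exact h1
  obtain ⟨N0, hN0⟩ := eventually_atTop.1 hev
  exact ⟨N0, hN0⟩

end Pool.Agent.H707.CY633
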